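import Pool.Agent.Helper97.DV.Tm
import Pool.Agent.Helper41.DV.Fin

/-!
Even domains in the sense of the problem (the boundary is a closed diagonal path of even vertices): the outside
together with the boundary is king connected.
-/

open Finset RP4

namespace DV

/-- the sites of a closed diagonal path are joined by diagonal steps -/
lemma path_xcon {n : ℕ} {c : ℕ → V} {S : Set V} (h0 : c 0 ∈ S) (hc : ∀ i < n, GF.Fin.Diagonal (c i) (c (i + 1)))
    (hS : ∀ i ≤ n, c i ∈ S) : ∀ i ≤ n, XCon S (c 0) (c i) := by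
  intro i
  induction i with
  | zero => exact fun _ => Jn.refl h0
  | succ i ih => exact fun hi => (ih (by omega)).step (hc i (by omega)) (hS (i + 1) hi)

/-- the boundary of an even domain is connected by diagonal steps -/
theorem xcon_bdry {D : Finset V} (hD : GF.Fin.EvenDomain D) :
    ∀ u ∈ bdry D, ∀ v ∈ bdry D, XCon (bdry D : Set V) u v := by
  obtain ⟨n, c, hn, hcl, hc, hB, -⟩ := hD
  rw [GF.Fin.boundary_eq] at hB
  have hS : ∀ i ≤ n, c i ∈ (bdry D : Set V) := by
    intro i hi
    rcases Nat.lt_or_ge i n with h | h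
    · rw [hB]
      exact ⟨i, h, rfl⟩
    · have h1 : i = n := le_antisymm hi h
      rw [h1, hcl, hB]
      exact ⟨0, hn, rfl⟩
  have key : ∀ u ∈ bdry D, XCon (bdry D : Set V) (c 0) u := by
    intro u hu
    have h1 : u ∈ (bdry D : Set V) := mem_coe.2 hu
    rw [hB] at h1
    obtain ⟨i, hi, rfl⟩ := h1
    exact path_xcon (hS 0 (Nat.zero_le n)) hc hS i hi.le
  exact fun u hu v hv => (XCon.symm' (key u hu)).trans (key v hv)

theorem par_of_even {D : Finset V} (hD : GF.Fin.EvenDomain D) : BdryPar D 0 := by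
  obtain ⟨-, -, -, -, -, -, h⟩ := hD
  exact (GF.Fin.bdryPar_iff D).2 h

theorem bdry_nonempty_of_even {D : Finset V} (hD : GF.Fin.EvenDomain D) : (bdry D).Nonempty := by
  obtain ⟨n, c, hn, -, -, hB, -⟩ := hD
  rw [GF.Fin.boundary_eq] at hB
  have h : c 0 ∈ (bdry D : Set V) := by
    rw [hB]
    exact ⟨0, hn, rfl⟩
  exact ⟨c 0, mem_coe.1 h⟩

/-- a finite set with even, diagonally connected, nonempty boundary: the outside with the boundary is king
connected -/
theorem ko_of_xcon {D : Finset V} (hpar : BdryPar D 0) (hne : (bdry D).Nonempty)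
    (hx : ∀ u ∈ bdry D, ∀ v ∈ bdry D, XCon (bdry D : Set V) u v) : KO D := by
  refine ⟨hpar, ?_⟩
  obtain ⟨b, hb⟩ := hne
  have hbO : ∀ v ∈ bdry D, v ∈ OO D (bdry D) := fun v hv => Or.inr hv
  have key : ∀ z ∈ OO D (bdry D), ∃ v ∈ bdry D, KCon (OO D (bdry D)) z v := by
    intro z hz
    rcases id hz with h1 | h1
    · have hbD : b ∈ D := bdry_subset D hb
      have hzb : Con (Sq z (|b.1 - z.1| + |b.2 - z.2|)) z b := by
        apply Sq_cnn
        · constructor <;> simp only [sub_self, abs_zero] <;> positivity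
        · constructor
          · have := abs_nonneg (b.2 - z.2)
            linarith
          · have := abs_nonneg (b.1 - z.1)
            linarith
      obtain ⟨a, b', h2, h3, -, h4, -, h5⟩ := hzb.exit (A := (D : Set V)ᶜ) (fun h => h1 h) (fun h => h hbD)
      have haD : a ∉ D := fun h => h4 h
      have hb'D : b' ∈ D := by
        by_contra h
        exact h5 h
      have hb' : b' ∈ bdry D := mem_bdry.2 ⟨hb'D, a, h3, haD⟩
      refine ⟨b', hb', ?_⟩
      have h6 : KCon (OO D (bdry D)) z a := h2.mono (fun _ _ => adj_kng) fun v hv => Or.inl (fun h => hv.2 h)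
      exact h6.step (adj_kng h3) (hbO b' hb')
    · exact ⟨z, h1, Jn.refl hz⟩
  intro z hz z' hz'
  obtain ⟨v, hv, h1⟩ := key z hz
  obtain ⟨v', hv', h2⟩ := key z' hz'
  have h3 : KCon (OO D (bdry D)) v v' := (hx v hv v' hv').mono (fun _ _ => dia_kng) hbO
  exact (h1.trans h3).trans (KCon.symm' h2)

/-- even domains of the problem are in the class `KO` -/
theorem ko_of_even {D : Finset V} (hD : GF.Fin.EvenDomain D) : KO D :=
  ko_of_xcon (par_of_even hD) (bdry_nonempty_of_even hD) (xcon_bdry hD)

/-- even domains of the problem are in the class `WC` -/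
theorem wc_of_even {D : Finset V} (hD : GF.Fin.EvenDomain D) : LG.WC D := (ko_of_even hD).wc

end DV
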