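import Pool.Agent.Helper41.DV.Fin

/-!
# Sanity checks for the final statement (MP_973bc8_pr)

`exists_approximates`: the open square `|x| + |y| < 1` is approximated by the even domains
`|v₁| + |v₂| ≤ 2 m`.  `heights_finite`, `heights_nonempty`: the uniform measure on the height
functions on an even domain makes sense.
-/

set_option autoImplicit false

open Filter Topology

namespace GF.Fin

/-- the even diamond -/
noncomputable def diamond (m : ℕ) : Finset Vertex :=
  (Finset.Icc (-(2 * m : ℤ)) (2 * m) ×ˢ Finset.Icc (-(2 * m : ℤ)) (2 * m)).filter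
    fun v => |v.1| + |v.2| ≤ 2 * m

theorem mem_diamond {m : ℕ} {v : Vertex} : v ∈ diamond m ↔ |v.1| + |v.2| ≤ 2 * m := by
  unfold diamond
  rw [Finset.mem_filter, Finset.mem_product, Finset.mem_Icc, Finset.mem_Icc]
  constructor
  · exact fun h => h.2
  · intro h
    have h1 := abs_nonneg v.1
    have h2 := abs_nonneg v.2
    have h3 := abs_le.mp (show |v.1| ≤ 2 * m by linarith)
    have h4 := abs_le.mp (show |v.2| ≤ 2 * m by linarith)
    exact ⟨⟨h3, h4⟩, h⟩

theorem boundary_diamond {m : ℕ} {v : Vertex} :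
    v ∈ Boundary (diamond m) ↔ |v.1| + |v.2| = 2 * m := by
  constructor
  · rintro ⟨hv, u, hu, hu'⟩
    rw [mem_diamond] at hv hu'
    unfold Adjacent at hu
    rcases abs_cases (u.1 - v.1) with h1 | h1 <;> rcases abs_cases (u.2 - v.2) with h2 | h2 <;>
      rcases abs_cases u.1 with h3 | h3 <;> rcases abs_cases u.2 with h4 | h4 <;>
      rcases abs_cases v.1 with h5 | h5 <;> rcases abs_cases v.2 with h6 | h6 <;>
      omega
  · intro h
    refine ⟨mem_diamond.mpr h.le, ?_⟩
    rcases abs_cases v.1 with h1 | h1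
    · refine ⟨(v.1 + 1, v.2), by simp [Adjacent], ?_⟩
      rw [mem_diamond]
      show ¬ |v.1 + 1| + |v.2| ≤ 2 * m
      have h2 : |v.1 + 1| = v.1 + 1 := abs_of_nonneg (by omega)
      rw [h2]
      omega
    · refine ⟨(v.1 - 1, v.2), by simp [Adjacent], ?_⟩
      rw [mem_diamond]
      show ¬ |v.1 - 1| + |v.2| ≤ 2 * m
      have h2 : |v.1 - 1| = -(v.1 - 1) := abs_of_nonpos (by omega)
      rw [h2]
      omega

/-- the circuit around the diamond -/
def circ (m i : ℕ) : Vertex :=
  if i ≤ 2 * m then (2 * m - i, i)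
  else if i ≤ 4 * m then (2 * m - i, 4 * m - i)
  else if i ≤ 6 * m then (i - 6 * m, 4 * m - i)
  else (i - 6 * m, i - 8 * m)

theorem abs_one_of {a : ℤ} (h : a = 1 ∨ a = -1) : |a| = 1 := by
  rcases h with h | h <;> rw [h] <;> rfl

theorem circ_diag {m : ℕ} (hm : 0 < m) (i : ℕ) (_hi : i < 8 * m) :
    Diagonal (circ m i) (circ m (i + 1)) := by
  unfold circ Diagonal
  constructor <;> refine abs_one_of ?_ <;> split_ifs <;> push_cast <;> omega

theorem evenDomain_diamond {m : ℕ} (hm : 0 < m) : EvenDomain (diamond m) := by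
  refine ⟨8 * m, circ m, by omega, ?_, fun i hi => circ_diag hm i hi, ?_, ?_⟩
  · unfold circ
    rw [if_neg (by omega), if_neg (by omega), if_neg (by omega), if_pos (by omega)]
    refine Prod.ext ?_ ?_
    · push_cast; ring
    · push_cast; ring
  · ext v
    rw [boundary_diamond, Set.mem_ofPred_eq]
    constructor
    · intro h
      rcases lt_or_ge 0 v.1 with h1 | h1
      · rcases lt_or_ge v.2 0 with h2 | h2
        · rw [abs_of_pos h1, abs_of_neg h2] at h
          refine ⟨(6 * m + v.1).toNat, by omega, ?_⟩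
          unfold circ
          rw [if_neg (by omega), if_neg (by omega), if_neg (by omega)]
          refine Prod.ext ?_ ?_
          · show ((((6 * m + v.1).toNat : ℕ) : ℤ)) - 6 * m = v.1
            omega
          · show ((((6 * m + v.1).toNat : ℕ) : ℤ)) - 8 * m = v.2
            omega
        · rw [abs_of_pos h1, abs_of_nonneg h2] at h
          refine ⟨v.2.toNat, by omega, ?_⟩
          unfold circ
          rw [if_pos (by omega)]
          refine Prod.ext ?_ ?_
          · show 2 * (m : ℤ) - ((v.2.toNat : ℕ) : ℤ) = v.1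
            omega
          · show ((v.2.toNat : ℕ) : ℤ) = v.2
            omega
      · rcases lt_or_ge 0 v.2 with h2 | h2
        · rw [abs_of_nonpos h1, abs_of_pos h2] at h
          refine ⟨(2 * m - v.1).toNat, by omega, ?_⟩
          unfold circ
          by_cases h3 : v.1 = 0
          · rw [if_pos (by omega)]
            refine Prod.ext ?_ ?_
            · show 2 * (m : ℤ) - (((2 * m - v.1).toNat : ℕ) : ℤ) = v.1
              omega
            · show (((2 * m - v.1).toNat : ℕ) : ℤ) = v.2
              omega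
          · rw [if_neg (by omega), if_pos (by omega)]
            refine Prod.ext ?_ ?_
            · show 2 * (m : ℤ) - (((2 * m - v.1).toNat : ℕ) : ℤ) = v.1
              omega
            · show 4 * (m : ℤ) - (((2 * m - v.1).toNat : ℕ) : ℤ) = v.2
              omega
        · rw [abs_of_nonpos h1, abs_of_nonpos h2] at h
          refine ⟨(6 * m + v.1).toNat, by omega, ?_⟩
          unfold circ
          by_cases h3 : v.2 = 0
          · rw [if_neg (by omega), if_pos (by omega)]
            refine Prod.ext ?_ ?_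
            · show 2 * (m : ℤ) - (((6 * m + v.1).toNat : ℕ) : ℤ) = v.1
              omega
            · show 4 * (m : ℤ) - (((6 * m + v.1).toNat : ℕ) : ℤ) = v.2
              omega
          · rw [if_neg (by omega), if_neg (by omega), if_pos (by omega)]
            refine Prod.ext ?_ ?_
            · show (((6 * m + v.1).toNat : ℕ) : ℤ) - 6 * m = v.1
              omega
            · show 4 * (m : ℤ) - (((6 * m + v.1).toNat : ℕ) : ℤ) = v.2
              omega
    · rintro ⟨i, hi, rfl⟩
      unfold circ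
      split_ifs with h1 h2 h3
      · show |2 * (m : ℤ) - i| + |(i : ℤ)| = 2 * m
        rw [abs_of_nonneg (by omega), abs_of_nonneg (by omega)]
        ring
      · show |2 * (m : ℤ) - i| + |4 * (m : ℤ) - i| = 2 * m
        rw [abs_of_nonpos (by omega), abs_of_nonneg (by omega)]
        ring
      · show |(i : ℤ) - 6 * m| + |4 * (m : ℤ) - i| = 2 * m
        rw [abs_of_nonpos (by omega), abs_of_nonpos (by omega)]
        ring
      · show |(i : ℤ) - 6 * m| + |(i : ℤ) - 8 * m| = 2 * m
        rw [abs_of_nonneg (by omega), abs_of_nonpos (by omega)]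
        ring
  · intro v hv
    rw [boundary_diamond] at hv
    rw [Int.even_iff]
    rcases abs_cases v.1 with h1 | h1 <;> rcases abs_cases v.2 with h2 | h2 <;> omega

/-- the open square -/
def openSquare : Set Plane := {z | |z.1| + |z.2| < 1}

/-- the radius of the approximating diamond -/
noncomputable def rad (δ : ℝ) : ℕ := ⌈1 / (2 * δ)⌉₊

theorem le_rad {δ : ℝ} (hδ : 0 < δ) : 1 ≤ δ * (2 * rad δ) := by
  have h1 : 1 / (2 * δ) ≤ rad δ := Nat.le_ceil _
  have h2 : (2 * δ) * (1 / (2 * δ)) = 1 := by field_simp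
  nlinarith

theorem rad_le {δ : ℝ} (hδ : 0 < δ) : δ * (2 * rad δ) < 1 + 2 * δ := by
  have h1 : (rad δ : ℝ) < 1 / (2 * δ) + 1 := Nat.ceil_lt_add_one (by positivity)
  have h2 : (2 * δ) * (1 / (2 * δ)) = 1 := by field_simp
  nlinarith

theorem rad_pos {δ : ℝ} (hδ : 0 < δ) : 0 < rad δ := Nat.ceil_pos.mpr (by positivity)

theorem openSquare_isOpen : IsOpen openSquare :=
  isOpen_lt (by fun_prop) continuous_const

theorem openSquare_bounded : Bornology.IsBounded openSquare := by
  refine (Metric.isBounded_closedBall (x := (0 : Plane)) (r := 1)).subset fun z hz => ?_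
  have hz' : |z.1| + |z.2| < 1 := hz
  have h1 := abs_nonneg z.1
  have h2 := abs_nonneg z.2
  rw [mem_closedBall_zero_iff, Prod.norm_def, Real.norm_eq_abs, Real.norm_eq_abs]
  exact max_le (by linarith) (by linarith)

theorem openSquare_nonempty : openSquare.Nonempty := ⟨(0, 0), by
  show |(0 : ℝ)| + |(0 : ℝ)| < 1
  rw [abs_zero, add_zero]
  exact one_pos⟩

theorem frontier_openSquare {z : Plane} (hz : z ∈ frontier openSquare) : |z.1| + |z.2| = 1 :=
  frontier_lt_subset_eq (f := fun z : Plane => |z.1| + |z.2|) (g := fun _ => 1)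
    (by fun_prop) continuous_const hz

/-- rounding away from zero -/
theorem exists_round (t s : ℝ) (ht : 0 ≤ t) :
    ∃ x : ℤ, t * |s| ≤ |(x : ℝ)| ∧ |(x : ℝ) - t * s| ≤ 1 := by
  rcases le_or_gt 0 s with hs | hs
  · refine ⟨⌈t * s⌉, ?_, ?_⟩
    · rw [abs_of_nonneg hs]
      exact (Int.le_ceil _).trans (le_abs_self _)
    · rw [abs_of_nonneg (by linarith [Int.le_ceil (t * s)])]
      linarith [Int.ceil_lt_add_one (t * s)]
  · refine ⟨⌊t * s⌋, ?_, ?_⟩
    · rw [abs_of_neg hs]
      have h1 := Int.floor_le (t * s)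
      have h2 := neg_le_abs ((⌊t * s⌋ : ℤ) : ℝ)
      linarith
    · rw [abs_of_nonpos (by linarith [Int.floor_le (t * s)])]
      linarith [Int.lt_floor_add_one (t * s)]

theorem approximates_openSquare : Approximates (fun δ => diamond (rad δ)) openSquare where
  even := fun δ hδ => evenDomain_diamond (rad_pos hδ)
  bounded := by
    refine ⟨3, ?_⟩
    filter_upwards [self_mem_nhdsWithin, Ioo_mem_nhdsGT (zero_lt_one' ℝ)] with δ hδ hδ1 x hx
    have hδ0 : (0 : ℝ) < δ := hδ
    rw [mem_diamond] at hx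
    have h1 : (|((x.1 : ℤ) : ℝ)| + |((x.2 : ℤ) : ℝ)|) ≤ 2 * rad δ := by exact_mod_cast hx
    have h2 := rad_le hδ0
    have h3 := abs_nonneg ((x.1 : ℤ) : ℝ)
    have h4 := abs_nonneg ((x.2 : ℤ) : ℝ)
    have h5 : δ < 1 := hδ1.2
    show ‖((δ * x.1, δ * x.2) : ℝ × ℝ)‖ ≤ 3
    rw [Prod.norm_def, Real.norm_eq_abs, Real.norm_eq_abs, abs_mul, abs_mul, abs_of_pos hδ0]
    refine max_le ?_ ?_
    · calc δ * |((x.1 : ℤ) : ℝ)| ≤ δ * (2 * rad δ) :=
            mul_le_mul_of_nonneg_left (by linarith) hδ0.le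
        _ ≤ 3 := by linarith
    · calc δ * |((x.2 : ℤ) : ℝ)| ≤ δ * (2 * rad δ) :=
            mul_le_mul_of_nonneg_left (by linarith) hδ0.le
        _ ≤ 3 := by linarith
  inner := by
    intro Q _ hQ
    filter_upwards [self_mem_nhdsWithin] with δ hδ x hx
    have hδ0 : (0 : ℝ) < δ := hδ
    have h1 : |δ * ((x.1 : ℤ) : ℝ)| + |δ * ((x.2 : ℤ) : ℝ)| < 1 := hQ hx
    rw [abs_mul, abs_mul, abs_of_pos hδ0] at h1
    have h2 := le_rad hδ0
    rw [mem_diamond]
    have h3 : (|((x.1 : ℤ) : ℝ)| + |((x.2 : ℤ) : ℝ)|) ≤ 2 * rad δ := by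
      by_contra hcon
      push Not at hcon
      have := mul_lt_mul_of_pos_left hcon hδ0
      linarith
    exact_mod_cast h3
  outer := by
    intro z hz ε hε
    have hz1 := frontier_openSquare hz
    filter_upwards [self_mem_nhdsWithin, Ioo_mem_nhdsGT (show (0 : ℝ) < ε / 5 by positivity)]
      with δ hδ hδε
    have hδ0 : (0 : ℝ) < δ := hδ
    have h5 : 5 * δ < ε := by linarith [hδε.2]
    set t : ℝ := 1 / δ + 4 with ht
    have ht0 : 0 ≤ t := by positivity
    have hδt : δ * t = 1 + 4 * δ := by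
      rw [ht]
      field_simp
    obtain ⟨x₁, h11, h12⟩ := exists_round t z.1 ht0
    obtain ⟨x₂, h21, h22⟩ := exists_round t z.2 ht0
    have hz3 := abs_nonneg z.1
    have hz4 := abs_nonneg z.2
    have key : ∀ (y : ℤ) (s : ℝ), |s| ≤ 1 → |(y : ℝ) - t * s| ≤ 1 → |δ * (y : ℝ) - s| < ε := by
      intro y s hs hy
      have h1 : δ * (y : ℝ) - s = δ * ((y : ℝ) - t * s) + 4 * δ * s := by
        have : δ * (t * s) = (1 + 4 * δ) * s := by rw [← mul_assoc, hδt]
        rw [mul_sub, this]
        ring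
      rw [h1]
      calc |δ * ((y : ℝ) - t * s) + 4 * δ * s|
          ≤ |δ * ((y : ℝ) - t * s)| + |4 * δ * s| := abs_add_le _ _
        _ = δ * |(y : ℝ) - t * s| + 4 * δ * |s| := by
            rw [abs_mul, abs_mul, abs_of_pos hδ0, abs_of_pos (show (0 : ℝ) < 4 * δ by positivity)]
        _ ≤ δ * 1 + 4 * δ * 1 := by gcongr
        _ < ε := by linarith
    refine ⟨(x₁, x₂), ?_, ?_⟩
    · rw [mem_diamond]
      intro hcon
      have h1 : (|((x₁ : ℤ) : ℝ)| + |((x₂ : ℤ) : ℝ)|) ≤ 2 * rad δ := by exact_mod_cast hcon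
      have h2 := rad_le hδ0
      have h3 : t ≤ 2 * rad δ := by
        calc t = t * |z.1| + t * |z.2| := by rw [← mul_add, hz1, mul_one]
          _ ≤ |((x₁ : ℤ) : ℝ)| + |((x₂ : ℤ) : ℝ)| := add_le_add h11 h21
          _ ≤ _ := h1
      have h4 := mul_le_mul_of_nonneg_left h3 hδ0.le
      linarith
    · show dist ((δ * (x₁ : ℝ), δ * (x₂ : ℝ)) : ℝ × ℝ) z < ε
      rw [Prod.dist_eq, Real.dist_eq, Real.dist_eq]
      exact max_lt (key x₁ z.1 (by linarith) h12) (key x₂ z.2 (by linarith) h22)

/-- The hypotheses of the final statement can be fulfilled. -/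
theorem exists_approximates : ∃ (Ω : Set Plane) (D : ℝ → Finset Vertex), IsOpen Ω ∧
    Bornology.IsBounded Ω ∧ Ω.Nonempty ∧ Approximates D Ω :=
  ⟨openSquare, _, openSquare_isOpen, openSquare_bounded, openSquare_nonempty,
    approximates_openSquare⟩

theorem isHeight_iff_mem {D : Finset Vertex} (hD : ∀ v ∈ Boundary D, Even (v.1 + v.2)) (h : Vertex → ℤ) :
    IsHeight D h ↔ h ∈ RP4.Om D := by
  rw [RP4.mem_Om]
  constructor
  · intro hh
    refine ⟨⟨hh.off, fun v hv => ?_, hh.step⟩, fun v hv => hh.zero v ?_⟩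
    · rw [sub_zero]
      unfold RP4.par
      by_cases hev : Even (v.1 + v.2)
      · exact (hh.even v hv hev).sub hev
      · have hin : v ∉ Boundary D := fun hb => hev (hD v hb)
        have hu : (v.1 + 1, v.2) ∈ D := by
          by_contra hu
          exact hin ⟨hv, (v.1 + 1, v.2), by simp [Adjacent], hu⟩
        have h1 := hh.step _ hu v hv (by simp [Adjacent])
        have h2 : Even (h (v.1 + 1, v.2)) := by
          refine hh.even _ hu ?_
          have : Odd (v.1 + v.2) := Int.not_even_iff_odd.1 hev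
          have h3 : v.1 + 1 + v.2 = v.1 + v.2 + 1 := by ring
          simp only [h3]
          exact this.add_one
        have h3 : Odd (v.1 + v.2) := Int.not_even_iff_odd.1 hev
        have h4 : Odd (h v) := by
          rcases (abs_eq (by norm_num : (0 : ℤ) ≤ 1)).1 h1 with h5 | h5
          · have h6 : h v = h (v.1 + 1, v.2) - 1 := by linarith
            rw [h6]
            exact h2.sub_odd odd_one
          · have h6 : h v = h (v.1 + 1, v.2) + 1 := by linarith
            rw [h6]
            exact h2.add_one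
        exact h4.sub_odd h3
    · rw [boundary_eq]
      exact hv
  · rintro ⟨hh, hz⟩
    refine ⟨hh.step, fun v hv hev => ?_, fun v hv => hz v ?_, hh.off⟩
    · have h1 := hh.par v hv
      rw [sub_zero] at h1
      unfold RP4.par at h1
      have h2 := h1.add hev
      rwa [sub_add_cancel] at h2
    · rw [boundary_eq] at hv
      exact hv

/-- There are finitely many height functions. -/
theorem heights_finite {D : Finset Vertex} (hD : EvenDomain D) : {h | IsHeight D h}.Finite := by
  obtain ⟨_, _, _, _, _, _, hev⟩ := hD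
  refine (RP4.Om D).finite_toSet.subset fun h hh => ?_
  exact (isHeight_iff_mem hev h).mp hh

/-- There are height functions. -/
theorem heights_nonempty {D : Finset Vertex} (hD : EvenDomain D) : {h | IsHeight D h}.Nonempty := by
  classical
  obtain ⟨_, _, _, _, _, _, hev⟩ := hD
  refine ⟨fun v => if v ∈ D ∧ ¬ Even (v.1 + v.2) then 1 else 0, ?_, ?_, ?_, ?_⟩
  · intro u hu v hv h
    have h1 : Even (u.1 + u.2) ↔ ¬ Even (v.1 + v.2) := by
      unfold Adjacent at h
      rw [Int.even_iff, Int.even_iff]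
      rcases abs_cases (u.1 - v.1) with h1 | h1 <;> rcases abs_cases (u.2 - v.2) with h2 | h2 <;>
        omega
    by_cases hu' : Even (u.1 + u.2)
    · have hv' := h1.mp hu'
      show |(if u ∈ D ∧ ¬ Even (u.1 + u.2) then (1 : ℤ) else 0) -
        (if v ∈ D ∧ ¬ Even (v.1 + v.2) then (1 : ℤ) else 0)| = 1
      rw [if_neg (fun hc => hc.2 hu'), if_pos ⟨hv, hv'⟩]
      rfl
    · have hv' : Even (v.1 + v.2) := by
        by_contra hcon
        exact hu' (h1.mpr hcon)
      show |(if u ∈ D ∧ ¬ Even (u.1 + u.2) then (1 : ℤ) else 0) -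
        (if v ∈ D ∧ ¬ Even (v.1 + v.2) then (1 : ℤ) else 0)| = 1
      rw [if_pos ⟨hu, hu'⟩, if_neg (fun hc => hc.2 hv')]
      rfl
  · intro v _ hv
    show Even (if v ∈ D ∧ ¬ Even (v.1 + v.2) then (1 : ℤ) else 0)
    rw [if_neg (fun hc => hc.2 hv)]
    exact Even.zero
  · intro v hv
    show (if v ∈ D ∧ ¬ Even (v.1 + v.2) then (1 : ℤ) else 0) = 0
    rw [if_neg (fun hc => hc.2 (hev v hv))]
  · intro v hv
    show (if v ∈ D ∧ ¬ Even (v.1 + v.2) then (1 : ℤ) else 0) = 0
    rw [if_neg (fun hc => hv hc.1)]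

end GF.Fin
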