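import Pool.Agent.Helper90.DV.San
import Pool.Agent.Helper23.DV.Fu

/-!
# Sanity check for the final statement without a bound on the domains (MP_973bc8_pr)
-/

set_option autoImplicit false

open Filter Topology

namespace GF.Fin

theorem Approximates.approx {D : ℝ → Finset Vertex} {Ω : Set Plane} (h : Approximates D Ω) :
    Approx D Ω := ⟨h.even, h.inner, h.outer⟩

/-- The hypotheses of the final statement can be fulfilled. -/
theorem exists_approx : ∃ (Ω : Set Plane) (D : ℝ → Finset Vertex), IsOpen Ω ∧
    Bornology.IsBounded Ω ∧ Ω.Nonempty ∧ Approx D Ω :=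
  ⟨openSquare, _, openSquare_isOpen, openSquare_bounded, openSquare_nonempty,
    approximates_openSquare.approx⟩

end GF.Fin
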